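import Pool.Agent.K7.H96.FM.Stm

/-!
Job BIN of project FM (MP_e99367_co): comparison with the binomial distribution.
-/

namespace Pool.Agent.K7.H96.FM

namespace Bin

open Finset

theorem pr_nonneg {V : Type} [Fintype V] (E : (V → Fin 1000) → Prop) : 0 ≤ Pr E := by
  unfold Pr; positivity

theorem pr_mono {V : Type} [Fintype V] {E F : (V → Fin 1000) → Prop} (h : ∀ ω, E ω → F ω) :
    Pr E ≤ Pr F := by
  classical
  unfold Pr
  apply div_le_div_of_nonneg_right _ (by positivity)
  have : (univ.filter (fun ω => E ω)).card ≤ (univ.filter (fun ω => F ω)).card := by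
    apply Finset.card_le_card
    intro ω hω
    rw [Finset.mem_filter] at hω ⊢
    exact ⟨hω.1, h ω hω.2⟩
  exact_mod_cast this

theorem pr_congr {V : Type} [Fintype V] {E F : (V → Fin 1000) → Prop} (h : ∀ ω, E ω ↔ F ω) :
    Pr E = Pr F := by
  have : E = F := funext fun ω => propext (h ω)
  rw [this]

theorem pr_split {V : Type} [Fintype V] (E F : (V → Fin 1000) → Prop) :
    Pr E = Pr (fun ω => E ω ∧ F ω) + Pr (fun ω => E ω ∧ ¬ F ω) := by
  classical
  unfold Pr
  rw [← add_div]
  congr 1
  have h1 : univ.filter (fun ω => E ω ∧ F ω) = (univ.filter (fun ω => E ω)).filter (fun ω => F ω) := by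
    rw [Finset.filter_filter]
  have h2 : univ.filter (fun ω => E ω ∧ ¬ F ω)
      = (univ.filter (fun ω => E ω)).filter (fun ω => ¬ F ω) := by
    rw [Finset.filter_filter]
  have := Finset.card_filter_add_card_filter_not (s := univ.filter (fun ω => E ω)) (fun ω => F ω)
  rw [← h1, ← h2] at this
  rw [← this]
  push_cast
  rfl

theorem B_zero (m : ℝ) (n : ℕ) : B m n 0 = 1 := by cases n <;> rfl

theorem B_succ (m : ℝ) (n j : ℕ) : B m (n + 1) (j + 1) = m * B m n j + (1 - m) * B m n (j + 1) := rfl

end Bin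

open Finset Bin

theorem stBin (h : StCount) : StBin := by
  intro V _ _ A τ M E hM hτ hE
  induction A using Finset.induction_on with
  | empty =>
    intro j
    cases j with
    | zero =>
      rw [B_zero, one_mul]
      exact pr_mono fun ω hω => hω.1
    | succ j =>
      have h0 : Pr (fun ω : V → Fin 1000 =>
          E ω ∧ j + 1 ≤ ((∅ : Finset V).filter (fun w => (ω w : ℕ) < τ w)).card) ≤
          Pr (fun _ : V → Fin 1000 => False) := by
        apply pr_mono
        intro ω hω
        have := hω.2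
        simp at this
      have h1 : Pr (fun _ : V → Fin 1000 => False) = 0 := by simp [Pr]
      have h2 : B (M / 1000 : ℝ) (∅ : Finset V).card (j + 1) = 0 := rfl
      rw [h2, zero_mul]
      linarith
  | insert w A hw ih =>
    have ih' := ih (fun u hu => hτ u (Finset.mem_insert_of_mem hu))
      (fun u hu => hE u (Finset.mem_insert_of_mem hu))
    intro j
    cases j with
    | zero =>
      rw [B_zero, one_mul]
      exact pr_mono fun ω hω => hω.1
    | succ j =>
      rw [Finset.card_insert_of_notMem hw, B_succ]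
      have hτw : τ w ≤ M := hτ w (Finset.mem_insert_self _ _)
      -- independence
      have hc : ∀ (ω : V → Fin 1000) (x : Fin 1000),
          A.filter (fun u => ((Function.update ω w x) u : ℕ) < τ u)
            = A.filter (fun u => (ω u : ℕ) < τ u) := by
        intro ω x
        apply Finset.filter_congr
        intro u hu
        have : u ≠ w := fun e => hw (e ▸ hu)
        rw [Function.update_of_ne this]
      have hind : ∀ i : ℕ, ∀ (ω : V → Fin 1000) (x : Fin 1000),
          (E (Function.update ω w x) ∧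
            i ≤ (A.filter (fun u => ((Function.update ω w x) u : ℕ) < τ u)).card) ↔
          (E ω ∧ i ≤ (A.filter (fun u => (ω u : ℕ) < τ u)).card) := by
        intro i ω x
        rw [hc, hE w (Finset.mem_insert_self _ _) ω x]
      have k1 := h V w (τ w) (fun ω => E ω ∧ j ≤ (A.filter (fun u => (ω u : ℕ) < τ u)).card)
        (hτw.trans hM) (hind j)
      have k2 := h V w (τ w) (fun ω => E ω ∧ j + 1 ≤ (A.filter (fun u => (ω u : ℕ) < τ u)).card)
        (hτw.trans hM) (hind (j + 1))
      have k3 := pr_split (fun ω => E ω ∧ j + 1 ≤ (A.filter (fun u => (ω u : ℕ) < τ u)).card)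
        (fun ω => (ω w : ℕ) < τ w)
      have k4 := pr_split (fun ω => E ω ∧ j + 1 ≤
        ((insert w A).filter (fun u => (ω u : ℕ) < τ u)).card) (fun ω => (ω w : ℕ) < τ w)
      have k5 : Pr (fun ω => (E ω ∧ j + 1 ≤
          ((insert w A).filter (fun u => (ω u : ℕ) < τ u)).card) ∧ (ω w : ℕ) < τ w)
          = Pr (fun ω => (E ω ∧ j ≤ (A.filter (fun u => (ω u : ℕ) < τ u)).card) ∧
            (ω w : ℕ) < τ w) := by
        apply pr_congr
        intro ω
        by_cases hx : (ω w : ℕ) < τ w
        · rw [Finset.filter_insert, if_pos hx, Finset.card_insert_of_notMem (by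
            simp [hw])]
          simp only [Nat.add_le_add_iff_right]
        · simp [hx]
      have k6 : Pr (fun ω => (E ω ∧ j + 1 ≤
          ((insert w A).filter (fun u => (ω u : ℕ) < τ u)).card) ∧ ¬ (ω w : ℕ) < τ w)
          = Pr (fun ω => (E ω ∧ j + 1 ≤ (A.filter (fun u => (ω u : ℕ) < τ u)).card) ∧
            ¬ (ω w : ℕ) < τ w) := by
        apply pr_congr
        intro ω
        by_cases hx : (ω w : ℕ) < τ w
        · simp only [hx, not_true_eq_false, and_false]
        · rw [Finset.filter_insert, if_neg hx]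
      have k7 : Pr (fun ω => E ω ∧ j + 1 ≤ (A.filter (fun u => (ω u : ℕ) < τ u)).card)
          ≤ Pr (fun ω => E ω ∧ j ≤ (A.filter (fun u => (ω u : ℕ) < τ u)).card) :=
        pr_mono fun ω hω => ⟨hω.1, by have := hω.2; omega⟩
      have i1 := ih' j
      have i2 := ih' (j + 1)
      rw [k4, k5, k6, k1]
      rw [k2] at k3
      have ht : ((τ w : ℕ) : ℝ) / 1000 ≤ (M : ℝ) / 1000 := by
        apply div_le_div_of_nonneg_right _ (by norm_num)
        exact_mod_cast hτw
      have hm1 : (M : ℝ) / 1000 ≤ 1 := by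
        rw [div_le_one (by norm_num)]
        exact_mod_cast hM
      have hm0 : 0 ≤ (M : ℝ) / 1000 := by positivity
      set P0 := Pr (fun ω => E ω ∧ j ≤ (A.filter (fun u => (ω u : ℕ) < τ u)).card) with hP0
      set P1 := Pr (fun ω => E ω ∧ j + 1 ≤ (A.filter (fun u => (ω u : ℕ) < τ u)).card) with hP1
      set Q := Pr (fun ω => (E ω ∧ j + 1 ≤ (A.filter (fun u => (ω u : ℕ) < τ u)).card) ∧
            ¬ (ω w : ℕ) < τ w) with hQ
      have e1 : (((τ w : ℕ) : ℝ) / 1000) * (P0 - P1) ≤ ((M : ℝ) / 1000) * (P0 - P1) :=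
        mul_le_mul_of_nonneg_right ht (by linarith)
      have e2 : ((M : ℝ) / 1000) * P0 ≤ ((M : ℝ) / 1000) * (B (M / 1000 : ℝ) A.card j * Pr E) :=
        mul_le_mul_of_nonneg_left i1 hm0
      have e3 : (1 - (M : ℝ) / 1000) * P1
          ≤ (1 - (M : ℝ) / 1000) * (B (M / 1000 : ℝ) A.card (j + 1) * Pr E) :=
        mul_le_mul_of_nonneg_left i2 (by linarith)
      calc _ = (((τ w : ℕ) : ℝ) / 1000) * (P0 - P1) + P1 := by linarith
        _ ≤ ((M : ℝ) / 1000) * (P0 - P1) + P1 := by linarith
        _ = ((M : ℝ) / 1000) * P0 + (1 - (M : ℝ) / 1000) * P1 := by ring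
        _ ≤ ((M : ℝ) / 1000) * (B (M / 1000 : ℝ) A.card j * Pr E)
            + (1 - (M : ℝ) / 1000) * (B (M / 1000 : ℝ) A.card (j + 1) * Pr E) := by linarith
        _ = _ := by ring

end Pool.Agent.K7.H96.FM
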