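import Pool.Agent.K7.H96.FM.Stm

namespace Pool.Agent.K7.H96.FM

open Finset

open Classical in
theorem count_aux (V : Type) [Fintype V] (w : V) (t : ℕ)
    (E F : (V → Fin 1000) → Prop) (ht : t ≤ 1000)
    (hE : ∀ ω x, E (Function.update ω w x) ↔ E ω)
    (hF : ∀ ω, F ω ↔ (E ω ∧ (ω w : ℕ) < t)) :
    Pr F = (t / 1000 : ℝ) * Pr E := by
  have key : ((univ.filter (fun ω : V → Fin 1000 => F ω)) ×ˢ
      (univ : Finset (Fin 1000))).card =
      ((univ.filter (fun ω : V → Fin 1000 => E ω)) ×ˢ
      (univ.filter (fun b : Fin 1000 => (b : ℕ) < t))).card := by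
    refine Finset.card_nbij' (fun x => (Function.update x.1 w x.2, x.1 w))
      (fun x => (Function.update x.1 w x.2, x.1 w)) ?_ ?_ ?_ ?_
    · rintro ⟨ω, a⟩ h
      simp only [coe_product, Set.mem_prod, mem_coe, mem_filter, mem_univ, true_and, and_true, hF] at h ⊢
      exact ⟨(hE ω a).2 h.1, h.2⟩
    · rintro ⟨ω, a⟩ h
      simp only [coe_product, Set.mem_prod, mem_coe, mem_filter, mem_univ, true_and, and_true, hF] at h ⊢
      exact ⟨(hE ω a).2 h.1, by simpa using h.2⟩
    · rintro ⟨ω, a⟩ h
      simp
    · rintro ⟨ω, a⟩ h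
      simp
  have hc : (univ.filter (fun b : Fin 1000 => (b : ℕ) < t)).card = t := by
    have : (univ.filter (fun b : Fin 1000 => (b : ℕ) < t)).card = (Finset.range t).card := by
      refine Finset.card_nbij (fun b => (b : ℕ)) ?_ ?_ ?_
      · intro b hb
        simpa using hb
      · intro a _ b _ h
        exact Fin.ext h
      · intro n hn
        have hn' : n < t := by simpa using hn
        exact ⟨⟨n, lt_of_lt_of_le hn' ht⟩, by simpa using hn', rfl⟩
    simpa using this
  rw [card_product, card_product, hc] at key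
  simp only [card_univ, Fintype.card_fin] at key
  have keyR : ((univ.filter (fun ω : V → Fin 1000 => F ω)).card : ℝ) * 1000 =
      ((univ.filter (fun ω : V → Fin 1000 => E ω)).card : ℝ) * t := by exact_mod_cast key
  have h2 : ((univ.filter (fun ω : V → Fin 1000 => F ω)).card : ℝ) =
      (t / 1000 : ℝ) * ((univ.filter (fun ω : V → Fin 1000 => E ω)).card : ℝ) := by
    linarith
  unfold Pr
  rw [mul_div_assoc', h2]

theorem stCount : StCount := by
  intro V _ i w t E ht hE
  refine count_aux V w t E _ ht ?_ (fun ω => Iff.rfl)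
  intro ω x
  have := hE ω x
  rw [← this]
  have e : (i : DecidableEq V) = (fun a b => Classical.propDecidable (a = b)) := Subsingleton.elim _ _
  rw [e]

end Pool.Agent.K7.H96.FM
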