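import Pool.Agent.K7.H96.FM.Stm

namespace Pool.Agent.K7.H96.FM

open Finset

theorem stMain (hFrac : StFrac) (hRoot : StRoot) (hStatus : StStatus) (hStab : StStab)
    (hMarg : StMarg) (hG01 : StG01) (hG2 : StG2) : StMain := by
  intro V _ _ adj hl
  obtain ⟨R, f, dp, h1, h2, h3⟩ := hRoot V adj hl
  obtain ⟨S, s1, s2, s3, s4⟩ := hStatus V R f dp h2
  let s : Sys V adj := ⟨R, f, dp, S, hl, h1, h2, h3, s1, s2, s3, s4⟩
  refine hFrac V adj s.T (hStab V adj s) ?_
  intro v
  by_cases hv : v ∈ s.R
  · by_cases hd : (outN adj v).card ≤ 1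
    · exact hG01 V adj s v hv hd
    · exact hG2 V adj s v hv (by omega)
  · have h := (hMarg V adj s v hv).1
    have e : (fun ω => v ∈ s.T ω) = (fun ω => s.S ω v) := by
      funext ω
      simp only [Sys.T, mem_filter, mem_univ, true_and, eq_iff_iff]
      constructor
      · rintro ⟨h, _⟩
        exact h
      · intro h
        exact ⟨h, fun h' => absurd h' hv⟩
    rw [e]
    exact le_trans (by norm_num) h

end Pool.Agent.K7.H96.FM
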