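import Pool.Agent.K7.H96.FM.Stm

/-!
MP_e99367_co : job FRAC (a random stable set gives a fractional colouring).
-/

set_option autoImplicit false

namespace Pool.Agent.K7.H96.FM

open Finset

open Classical in
theorem stFrac : StFrac := by
  intro V _ _ adj T hT hv
  have hN : (0 : ℝ) < (1000 : ℝ) ^ (Fintype.card V) := by positivity
  refine ⟨fun S => (77 / 20) * (((univ.filter (fun ω => T ω = S)).card : ℝ) /
    (1000 : ℝ) ^ (Fintype.card V)), fun S => by positivity, ?_, ?_, ?_⟩
  · intro S hS
    have : (univ.filter (fun ω => T ω = S)) = ∅ := by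
      rw [Finset.filter_eq_empty_iff]
      rintro ω - rfl
      exact hS (hT ω)
    simp [this]
  · intro v
    rw [← Finset.mul_sum, ← Finset.sum_div]
    have key : ∑ S ∈ univ.filter (fun S : Finset V => v ∈ S),
        ((univ.filter (fun ω => T ω = S)).card : ℝ) =
        ((univ.filter (fun ω => v ∈ T ω)).card : ℝ) := by
      rw [Finset.card_eq_sum_card_fiberwise (s := univ.filter (fun ω => v ∈ T ω)) (f := T)
        (t := univ.filter (fun S : Finset V => v ∈ S))
        (by intro ω hω; simpa using hω)]
      push_cast
      refine Finset.sum_congr rfl fun S hS => ?_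
      congr 1
      congr 1
      ext ω
      simp only [mem_filter, mem_univ, true_and] at hS ⊢
      constructor
      · rintro rfl
        exact ⟨hS, rfl⟩
      · exact fun h => h.2
    rw [key]
    have e : Pr (fun ω => v ∈ T ω) = ((univ.filter (fun ω => v ∈ T ω)).card : ℝ) /
        (1000 : ℝ) ^ (Fintype.card V) := by
      have hh : ∀ (F G : Finset (V → Fin 1000)), (∀ ω, ω ∈ F ↔ ω ∈ G) →
          ((F.card : ℝ) / (1000 : ℝ) ^ (Fintype.card V) =
            (G.card : ℝ) / (1000 : ℝ) ^ (Fintype.card V)) := by
        intro F G h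
        rw [Finset.ext h]
      unfold Pr
      exact hh _ _ (fun ω => by simp)
    have h := hv v
    rw [e] at h
    have h2 : (1 : ℝ) = 77 / 20 * (20 / 77) := by norm_num
    calc (1 : ℝ) = 77 / 20 * (20 / 77) := h2
      _ ≤ 77 / 20 * (((univ.filter (fun ω => v ∈ T ω)).card : ℝ) /
          (1000 : ℝ) ^ (Fintype.card V)) := by
        exact mul_le_mul_of_nonneg_left h (by norm_num)
  · rw [← Finset.mul_sum, ← Finset.sum_div]
    have key : ∑ S : Finset V, ((univ.filter (fun ω => T ω = S)).card : ℝ) =
        (1000 : ℝ) ^ (Fintype.card V) := by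
      have h := Finset.card_eq_sum_card_fiberwise (s := (univ : Finset (V → Fin 1000))) (f := T)
        (t := univ) (by intro ω _; simp)
      have h3 : (univ : Finset (V → Fin 1000)).card = 1000 ^ (Fintype.card V) := by
        simp
      rw [h3] at h
      have h4 := congrArg (fun n : ℕ => (n : ℝ)) h
      push_cast at h4
      rw [h4]
    rw [key, div_self hN.ne']
    norm_num

end Pool.Agent.K7.H96.FM
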