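import Pool.Agent.K7.H96.FM.Stm

/-!
MP_e99367_co : job G01 (vertices of `R` with at most one out-neighbour).
-/

set_option autoImplicit false

namespace Pool.Agent.K7.H96.FM

open Finset

theorem G01.pr_mono {V : Type} [Fintype V] {E F : (V → Fin 1000) → Prop} (h : ∀ ω, E ω → F ω) :
    Pr E ≤ Pr F := by
  classical
  unfold Pr
  apply div_le_div_of_nonneg_right _ (by positivity)
  exact_mod_cast Finset.card_le_card (Finset.monotone_filter_right _ (fun ω _ => h ω))

theorem G01.pr_true {V : Type} [Fintype V] : Pr (fun _ : V → Fin 1000 => True) = 1 := by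
  simp [Pr]

theorem G01.pr_split {V : Type} [Fintype V] (E F : (V → Fin 1000) → Prop) :
    Pr E = Pr (fun ω => E ω ∧ F ω) + Pr (fun ω => E ω ∧ ¬ F ω) := by
  classical
  unfold Pr
  rw [← add_div]
  congr 1
  norm_cast
  have h := Finset.card_filter_add_card_filter_not (s := univ.filter (fun ω => E ω)) (p := F)
  rw [Finset.filter_filter, Finset.filter_filter] at h
  convert h.symm

theorem G01.pr_lt (h : StCount) {V : Type} [Fintype V] [DecidableEq V] (v : V) (t : ℕ)
    (ht : t ≤ 1000) : Pr (fun ω : V → Fin 1000 => (ω v : ℕ) < t) = t / 1000 := by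
  have h1 := h V v t (fun _ => True) ht (fun _ _ => Iff.rfl)
  rw [G01.pr_true, mul_one] at h1
  rw [← h1]
  apply le_antisymm
  · exact G01.pr_mono (fun ω hω => ⟨trivial, hω⟩)
  · exact G01.pr_mono (fun ω hω => hω.2)

open Classical in
theorem stG01 (h : StCount) : StG01 := by
  intro V _ _ adj s v hv hd
  have hT : ∀ ω, v ∈ s.T ω ↔ ((ω v : ℕ) < 420 ∧
      2 * ((outN adj v).filter (fun u => s.S ω u)).card ≤ (outN adj v).card) := by
    intro ω
    unfold Sys.T
    rw [mem_filter]
    simp only [mem_univ, true_and, hv, forall_const]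
    rw [s.S1 ω v hv]
  have h42 : Pr (fun ω : V → Fin 1000 => (ω v : ℕ) < 420) = 420 / 1000 := by
    have := G01.pr_lt h v 420 (by norm_num)
    simpa using this
  rcases Nat.lt_or_ge (outN adj v).card 1 with h0 | h1
  · have h0' : (outN adj v).card = 0 := by omega
    have he : outN adj v = ∅ := Finset.card_eq_zero.1 h0'
    calc (20 : ℝ) / 77 ≤ 420 / 1000 := by norm_num
      _ = Pr (fun ω : V → Fin 1000 => (ω v : ℕ) < 420) := h42.symm
      _ ≤ _ := G01.pr_mono (fun ω hω => by
        rw [hT ω]
        refine ⟨hω, ?_⟩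
        rw [he]
        simp)
  · have h1' : (outN adj v).card = 1 := by omega
    obtain ⟨w, hw, hwR, hf⟩ := s.root v hv h1'
    have hgood : ∀ ω, (ω v : ℕ) < 420 → ¬ s.S ω w → v ∈ s.T ω := by
      intro ω hω hn
      rw [hT ω]
      refine ⟨hω, ?_⟩
      have : (outN adj v).filter (fun u => s.S ω u) = ∅ := by
        rw [Finset.filter_eq_empty_iff]
        intro u hu
        rw [hw, mem_singleton] at hu
        rw [hu]
        exact hn
      rw [this]
      simp
    rcases hf with hf | hf
    · calc (20 : ℝ) / 77 ≤ 420 / 1000 := by norm_num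
        _ = Pr (fun ω : V → Fin 1000 => (ω v : ℕ) < 420) := h42.symm
        _ ≤ _ := G01.pr_mono (fun ω hω => by
          apply hgood ω hω
          intro hS
          have h2 := (s.S2 ω w hwR (by rw [hf]; exact hv)).1 hS
          apply h2.2
          rw [hf, s.S1 ω v hv]
          exact hω)
    · have hne : w ≠ v := by
        rintro rfl
        exact hwR hv
      have h2 : Pr (fun ω : V → Fin 1000 => (ω v : ℕ) < 420 ∧ (ω w : ℕ) < 352) =
          352 / 1000 * (420 / 1000) := by
        have h3 := h V w 352 (fun ω => (ω v : ℕ) < 420) (by norm_num) (by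
          intro ω x
          rw [Function.update_of_ne hne.symm])
        rw [h42] at h3
        simpa using h3
      have h4 := G01.pr_split (fun ω : V → Fin 1000 => (ω v : ℕ) < 420)
        (fun ω => (ω w : ℕ) < 352)
      rw [h42, h2] at h4
      calc (20 : ℝ) / 77 ≤ 420 / 1000 - 352 / 1000 * (420 / 1000) := by norm_num
        _ = Pr (fun ω : V → Fin 1000 => (ω v : ℕ) < 420 ∧ ¬ (ω w : ℕ) < 352) := by linarith
        _ ≤ _ := G01.pr_mono (fun ω hω => by
          apply hgood ω hω.1
          intro hS
          exact hω.2 ((s.S3 ω w hwR hf).1 hS).1)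

end Pool.Agent.K7.H96.FM
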