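import Pool.Agent.K7.H96.FM.Stm

/-! Jobs G2A, G2B, G2 of project FM (MP_e99367_co), with the tools. -/

namespace Pool.Agent.K7.H96.FM

open Finset

section tools

variable {V : Type} [Fintype V]

theorem pr_mono {E F : (V → Fin 1000) → Prop} (h : ∀ ω, E ω → F ω) : Pr E ≤ Pr F := by
  classical
  unfold Pr
  apply div_le_div_of_nonneg_right _ (by positivity)
  exact_mod_cast card_le_card (monotone_filter_right _ (fun ω _ hω => h ω hω))

theorem pr_split (E A : (V → Fin 1000) → Prop) :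
    Pr E = Pr (fun ω => E ω ∧ A ω) + Pr (fun ω => E ω ∧ ¬ A ω) := by
  classical
  unfold Pr
  rw [← add_div]
  congr 1
  rw [← Nat.cast_add]
  have e1 : (univ.filter fun ω : V → Fin 1000 => E ω ∧ A ω) = (univ.filter fun ω => E ω).filter A := by
    rw [filter_filter]
  have e2 : (univ.filter fun ω : V → Fin 1000 => E ω ∧ ¬ A ω) =
      (univ.filter fun ω => E ω).filter (fun ω => ¬ A ω) := by
    rw [filter_filter]
  have e3 := card_filter_add_card_filter_not (s := univ.filter fun ω : V → Fin 1000 => E ω) A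
  rw [← e1, ← e2] at e3
  congr 1
  convert e3.symm

theorem pr_true : Pr (V := V) (fun _ => True) = 1 := by
  classical
  unfold Pr
  rw [filter_true, card_univ]
  have : (Fintype.card (V → Fin 1000) : ℝ) = (1000 : ℝ) ^ Fintype.card V := by
    rw [Fintype.card_fun, Fintype.card_fin]
    norm_num
  rw [this]
  exact div_self (by positivity)

variable [DecidableEq V]

theorem pr_one (h : StCount) (v : V) : Pr (fun ω : V → Fin 1000 => (ω v : ℕ) < 420) = 42 / 100 := by
  have h1 := h V v 420 (fun _ => True) (by norm_num) (fun _ _ => Iff.rfl)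
  rw [pr_true] at h1
  have h2 : (fun ω : V → Fin 1000 => (ω v : ℕ) < 420) = fun ω => True ∧ (ω v : ℕ) < 420 := by
    funext ω
    simp
  rw [h2, h1]
  norm_num

theorem pr_two (h : StCount) {v r : V} (hr : r ≠ v) :
    Pr (fun ω : V → Fin 1000 => (ω v : ℕ) < 420 ∧ (ω r : ℕ) < 420) = 42 / 100 * (42 / 100) := by
  have h1 := h V r 420 (fun ω => (ω v : ℕ) < 420) (by norm_num) (fun ω x => by
    rw [Function.update_of_ne hr.symm])
  rw [pr_one h] at h1
  rw [h1]
  norm_num

theorem pr_two' (h : StCount) {v r : V} (hr : r ≠ v) :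
    Pr (fun ω : V → Fin 1000 => (ω v : ℕ) < 420 ∧ ¬ (ω r : ℕ) < 420) =
      42 / 100 * (58 / 100) := by
  have h1 := pr_split (fun ω : V → Fin 1000 => (ω v : ℕ) < 420) (fun ω => (ω r : ℕ) < 420)
  rw [pr_one h, pr_two h hr] at h1
  linarith

variable {adj : V → V → Prop}

theorem ne_of_out (s : Sys V adj) {v w : V} (h : w ∈ outN adj v) : w ≠ v := by
  classical
  rintro rfl
  unfold outN at h
  exact s.noloop w (mem_filter.1 h).2

/-- every selected vertex has a label below 448 -/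
theorem lt_of_S (s : Sys V adj) {ω : V → Fin 1000} {u : V} (h : s.S ω u) : (ω u : ℕ) < 448 := by
  by_cases hu : u ∈ s.R
  · have := (s.S1 ω u hu).1 h
    omega
  · by_cases hf : s.f u ∈ s.R
    · exact ((s.S2 ω u hu hf).1 h).1
    · have := ((s.S3 ω u hu hf).1 h).1
      omega

/-- BIN with constant thresholds -/
theorem bin_const (hb : StBin) (A : Finset V) (M : ℕ) (hM : M ≤ 1000)
    (E G : (V → Fin 1000) → Prop) (hE : ∀ w ∈ A, ∀ ω x, E (Function.update ω w x) ↔ E ω) (j : ℕ)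
    (hG : ∀ ω, G ω → E ω ∧ ∃ C : Finset V, C ⊆ A ∧ (∀ u ∈ C, (ω u : ℕ) < M) ∧ j ≤ C.card) :
    Pr G ≤ B (M / 1000 : ℝ) A.card j * Pr E := by
  classical
  refine le_trans (pr_mono ?_) (hb V A (fun _ => M) M E hM (fun _ _ => le_rfl) hE j)
  intro ω hω
  obtain ⟨h1, C, hC, hC2, hC3⟩ := hG ω hω
  refine ⟨h1, hC3.trans (card_le_card ?_)⟩
  intro u hu
  exact mem_filter.2 ⟨hC hu, hC2 u hu⟩

end tools

theorem stG2A (h : StCount) (hb : StBin) (hn : StNum) : StG2A := by
  intro V _ _ adj s v hv hd hall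
  have h1 := bin_const hb (outN adj v) 420 (by norm_num) (fun ω => (ω v : ℕ) < 420)
    (fun ω => (ω v : ℕ) < 420 ∧ Bad s v ω)
    (fun w hw ω x => by rw [Function.update_of_ne (ne_of_out s hw).symm])
    ((outN adj v).card / 2 + 1) (by
      rintro ω ⟨h0, C, hC, hC2, hC3⟩
      refine ⟨h0, C, hC, ?_, by omega⟩
      intro u hu
      by_cases hR : u ∈ s.R
      · exact (s.S1 ω u hR).1 (hC2 u hu)
      · have := ((s.S3 ω u hR (hall u (hC hu) hR)).1 (hC2 u hu)).1
        omega)
  have h2 := (hn (outN adj v).card hd).1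
  rw [pr_one h] at h1
  norm_num at h1 h2 ⊢
  linarith

theorem stG2B (h : StCount) (hb : StBin) (hn : StNum) : StG2B := by
  intro V _ _ adj s v hv hd w hw hwR hfR hfo
  have hwS : ∀ ω : V → Fin 1000, (ω (s.f w) : ℕ) < 420 → ¬ s.S ω w := by
    intro ω h1 h2
    exact ((s.S2 ω w hwR hfR).1 h2).2 ((s.S1 ω _ hfR).2 h1)
  obtain ⟨-, n2, n3, -⟩ := hn (outN adj v).card hd
  by_cases hrv : s.f w = v
  · have h1 := bin_const hb ((outN adj v).erase w) 448 (by norm_num) (fun ω => (ω v : ℕ) < 420)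
      (fun ω => (ω v : ℕ) < 420 ∧ Bad s v ω)
      (fun u hu ω x => by rw [Function.update_of_ne (ne_of_out s (mem_of_mem_erase hu)).symm])
      ((outN adj v).card / 2 + 1) (by
        rintro ω ⟨h0, C, hC, hC2, hC3⟩
        refine ⟨h0, C, ?_, fun u hu => lt_of_S s (hC2 u hu), by omega⟩
        intro u hu
        refine mem_erase.2 ⟨?_, hC hu⟩
        rintro rfl
        exact hwS ω (by rw [hrv]; exact h0) (hC2 u hu))
    rw [pr_one h, card_erase_of_mem hw] at h1
    norm_num at h1 n2 ⊢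
    linarith
  · have hA := bin_const hb ((outN adj v).erase w) 448 (by norm_num)
      (fun ω => (ω v : ℕ) < 420 ∧ (ω (s.f w) : ℕ) < 420)
      (fun ω => ((ω v : ℕ) < 420 ∧ Bad s v ω) ∧ (ω (s.f w) : ℕ) < 420)
      (fun u hu ω x => by
        rw [Function.update_of_ne (ne_of_out s (mem_of_mem_erase hu)).symm, Function.update_of_ne]
        rintro h
        exact hfo (h ▸ mem_of_mem_erase hu))
      ((outN adj v).card / 2 + 1) (by
        rintro ω ⟨⟨h0, C, hC, hC2, hC3⟩, h4⟩
        refine ⟨⟨h0, h4⟩, C, ?_, fun u hu => lt_of_S s (hC2 u hu), by omega⟩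
        intro u hu
        refine mem_erase.2 ⟨?_, hC hu⟩
        rintro rfl
        exact hwS ω h4 (hC2 u hu))
    have hB := bin_const hb (outN adj v) 448 (by norm_num)
      (fun ω => (ω v : ℕ) < 420 ∧ ¬ (ω (s.f w) : ℕ) < 420)
      (fun ω => ((ω v : ℕ) < 420 ∧ Bad s v ω) ∧ ¬ (ω (s.f w) : ℕ) < 420)
      (fun u hu ω x => by
        rw [Function.update_of_ne (ne_of_out s hu).symm, Function.update_of_ne]
        rintro h
        exact hfo (h ▸ hu))
      ((outN adj v).card / 2 + 1) (by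
        rintro ω ⟨⟨h0, C, hC, hC2, hC3⟩, h4⟩
        exact ⟨⟨h0, h4⟩, C, hC, fun u hu => lt_of_S s (hC2 u hu), by omega⟩)
    rw [pr_split _ (fun ω => (ω (s.f w) : ℕ) < 420)]
    rw [pr_two h hrv, card_erase_of_mem hw] at hA
    rw [pr_two' h hrv] at hB
    norm_num at hA hB n3 ⊢
    linarith

theorem stG2 (h : StCount) (ha : StG2A) (hb : StG2B) (hc : StG2C) : StG2 := by
  intro V _ _ adj s v hv hd
  have key : Pr (fun ω => (ω v : ℕ) < 420 ∧ Bad s v ω) ≤ 42 / 100 * (3815 / 10000) := by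
    by_cases hall : ∀ w ∈ outN adj v, w ∉ s.R → s.f w ∉ s.R
    · exact ha V adj s v hv hd hall
    · push Not at hall
      obtain ⟨w, hw, hwR, hfR⟩ := hall
      by_cases hfo : s.f w ∈ outN adj v
      · exact hc V adj s v hv hd w hw hwR hfR hfo
      · exact hb V adj s v hv hd w hw hwR hfR hfo
  have h1 := pr_split (fun ω : V → Fin 1000 => (ω v : ℕ) < 420) (Bad s v)
  rw [pr_one h] at h1
  have h2 : Pr (fun ω : V → Fin 1000 => (ω v : ℕ) < 420 ∧ ¬ Bad s v ω) ≤
      Pr (fun ω => v ∈ s.T ω) := by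
    classical
    apply pr_mono
    rintro ω ⟨h3, h4⟩
    unfold Sys.T
    refine mem_filter.2 ⟨mem_univ _, (s.S1 ω v hv).2 h3, fun _ => ?_⟩
    by_contra hcon
    push Not at hcon
    apply h4
    refine ⟨_, filter_subset _ _, fun u hu => (mem_filter.1 hu).2, hcon⟩
  have h5 : (20 : ℝ) / 77 ≤ 42 / 100 - 42 / 100 * (3815 / 10000) := by norm_num
  linarith

end Pool.Agent.K7.H96.FM
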