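import Pool.Agent.K7.H96.FM.Stm

set_option autoImplicit false

namespace Pool.Agent.K7.H96.FM

open Finset

namespace G2Caux

variable {V : Type} [Fintype V]

theorem Pr_mono {E E' : (V → Fin 1000) → Prop} (h : ∀ ω, E ω → E' ω) : Pr E ≤ Pr E' := by
  classical
  unfold Pr
  apply div_le_div_of_nonneg_right _ (by positivity)
  have : (univ.filter (fun ω => E ω)) ⊆ (univ.filter (fun ω => E' ω)) := by
    intro ω hω
    rw [mem_filter] at hω ⊢
    exact ⟨hω.1, h ω hω.2⟩
  exact_mod_cast card_le_card this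

theorem Pr_split (E F : (V → Fin 1000) → Prop) :
    Pr (fun ω => E ω ∧ F ω) + Pr (fun ω => E ω ∧ ¬ F ω) = Pr E := by
  classical
  unfold Pr
  rw [← add_div]
  congr 1
  have h := Finset.card_filter_add_card_filter_not (s := univ.filter (fun ω => E ω)) (fun ω => F ω)
  rw [filter_filter, filter_filter] at h
  have h2 : ((univ.filter (fun ω => E ω ∧ F ω)).card : ℝ) + ((univ.filter (fun ω => E ω ∧ ¬ F ω)).card : ℝ) =
      ((univ.filter (fun ω => E ω)).card : ℝ) := by exact_mod_cast h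
  convert h2

theorem Pr_true : Pr (fun _ : V → Fin 1000 => True) = 1 := by
  classical
  unfold Pr
  rw [filter_true, card_univ]
  simp

theorem Pr_one (h : StCount) [DecidableEq V] (v : V) (t : ℕ) (ht : t ≤ 1000) :
    Pr (fun ω : V → Fin 1000 => (ω v : ℕ) < t) = (t / 1000 : ℝ) := by
  have h1 := h V v t (fun _ => True) ht (fun _ _ => Iff.rfl)
  rw [Pr_true, mul_one] at h1
  rw [← h1]
  congr 1
  funext ω
  simp

end G2Caux

open G2Caux

theorem stG2C (h : StCount) (hb : StBin) (hn : StNum) : StG2C := by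
  intro V _ _ adj s v hv hd w hw hwR hrR hrN
  obtain ⟨-, -, -, hnum⟩ := hn _ hd
  set N := outN adj v with hN
  set r := s.f w with hr
  have hvN : v ∉ N := by
    intro hvN
    exact s.noloop v (by simpa [hN, outN] using hvN)
  have hrw : r ≠ w := by
    intro e
    have := s.dplt w hwR
    rw [← hr, e] at this
    exact lt_irrefl _ this
  have hrv : r ≠ v := fun e => hvN (e ▸ hrN)
  have hS : ∀ ω u, s.S ω u → (ω u : ℕ) < 448 := by
    intro ω u hu
    by_cases h1 : u ∈ s.R
    · have := (s.S1 ω u h1).1 hu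
      omega
    · by_cases h2 : s.f u ∈ s.R
      · exact ((s.S2 ω u h1 h2).1 hu).1
      · have := ((s.S3 ω u h1 h2).1 hu).1
        omega
  -- probabilities
  have p1 : Pr (fun ω : V → Fin 1000 => (ω v : ℕ) < 420) = 42 / 100 := by
    rw [Pr_one h v 420 (by norm_num)]
    norm_num
  have p2 : Pr (fun ω : V → Fin 1000 => (ω v : ℕ) < 420 ∧ (ω r : ℕ) < 420) = 42 / 100 * (42 / 100) := by
    rw [h V r 420 (fun ω => (ω v : ℕ) < 420) (by norm_num) (fun ω x => by
      rw [Function.update_of_ne hrv.symm]), p1]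
    norm_num
  have p3 : Pr (fun ω : V → Fin 1000 => (ω v : ℕ) < 420 ∧ ¬ (ω r : ℕ) < 420) = 42 / 100 * (58 / 100) := by
    have := Pr_split (fun ω : V → Fin 1000 => (ω v : ℕ) < 420) (fun ω => (ω r : ℕ) < 420)
    rw [p1, p2] at this
    linarith
  -- the two events
  have e1 : Pr (fun ω : V → Fin 1000 => ((ω v : ℕ) < 420 ∧ Bad s v ω) ∧ (ω r : ℕ) < 420) ≤
      B (448 / 1000) (N.card - 2) (N.card / 2) * (42 / 100 * (42 / 100)) := by
    have hA : ((N.erase w).erase r).card = N.card - 2 := by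
      rw [card_erase_of_mem (mem_erase.2 ⟨hrw, hrN⟩), card_erase_of_mem hw]
      omega
    have h1 := hb V ((N.erase w).erase r) (fun _ => 448) 448
      (fun ω => (ω v : ℕ) < 420 ∧ (ω r : ℕ) < 420) (by norm_num) (fun _ _ => le_rfl) (by
        intro u hu ω x
        rw [mem_erase, mem_erase] at hu
        have hvu : v ≠ u := fun e => hvN (e ▸ hu.2.2)
        rw [Function.update_of_ne hvu, Function.update_of_ne hu.1.symm]) (N.card / 2)
    rw [p2, hA] at h1
    refine le_trans (Pr_mono ?_) (le_trans h1 (le_of_eq ?_))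
    · rintro ω ⟨⟨h2, C, hC1, hC2, hC3⟩, h3⟩
      refine ⟨⟨h2, h3⟩, ?_⟩
      have hwC : w ∉ C := by
        intro hwC
        exact ((s.S2 ω w hwR hrR).1 (hC2 w hwC)).2 ((s.S1 ω r hrR).2 h3)
      have hsub : C.erase r ⊆ ((N.erase w).erase r).filter (fun u => (ω u : ℕ) < 448) := by
        intro u hu
        rw [mem_erase] at hu
        rw [mem_filter, mem_erase, mem_erase]
        exact ⟨⟨hu.1, fun e => hwC (e ▸ hu.2), hC1 hu.2⟩, hS ω u (hC2 u hu.2)⟩
      have h4 := card_le_card hsub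
      have h5 := pred_card_le_card_erase (a := r) (s := C)
      have hC3' : N.card < 2 * C.card := hC3
      omega
    · norm_num
  have e2 : Pr (fun ω : V → Fin 1000 => ((ω v : ℕ) < 420 ∧ Bad s v ω) ∧ ¬ (ω r : ℕ) < 420) ≤
      B (448 / 1000) (N.card - 1) (N.card / 2 + 1) * (42 / 100 * (58 / 100)) := by
    have hA : (N.erase r).card = N.card - 1 := card_erase_of_mem hrN
    have h1 := hb V (N.erase r) (fun _ => 448) 448
      (fun ω => (ω v : ℕ) < 420 ∧ ¬ (ω r : ℕ) < 420) (by norm_num) (fun _ _ => le_rfl) (by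
        intro u hu ω x
        rw [mem_erase] at hu
        have hvu : v ≠ u := fun e => hvN (e ▸ hu.2)
        rw [Function.update_of_ne hvu, Function.update_of_ne hu.1.symm]) (N.card / 2 + 1)
    rw [p3, hA] at h1
    refine le_trans (Pr_mono ?_) (le_trans h1 (le_of_eq ?_))
    · rintro ω ⟨⟨h2, C, hC1, hC2, hC3⟩, h3⟩
      refine ⟨⟨h2, h3⟩, ?_⟩
      have hrC : r ∉ C := fun hrC => h3 ((s.S1 ω r hrR).1 (hC2 r hrC))
      have hsub : C ⊆ (N.erase r).filter (fun u => (ω u : ℕ) < 448) := by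
        intro u hu
        rw [mem_filter, mem_erase]
        exact ⟨⟨fun e => hrC (e ▸ hu), hC1 hu⟩, hS ω u (hC2 u hu)⟩
      have h4 := card_le_card hsub
      have hC3' : N.card < 2 * C.card := hC3
      omega
    · norm_num
  have hsp := Pr_split (fun ω : V → Fin 1000 => (ω v : ℕ) < 420 ∧ Bad s v ω) (fun ω => (ω r : ℕ) < 420)
  rw [← hsp]
  linarith

end Pool.Agent.K7.H96.FM
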