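import Pool.Agent.K7.H96.FM.Stm

/-! MP_e99367_co, job MARG (helper62). -/

namespace Pool.Agent.K7.H96.FM.MARG

open Finset

variable {V : Type} [Fintype V]

theorem pr_congr {E E' : (V → Fin 1000) → Prop} (h : ∀ ω, E ω ↔ E' ω) : Pr E = Pr E' := by
  have : E = E' := funext fun ω => propext (h ω)
  rw [this]

theorem pr_true : Pr (fun _ : V → Fin 1000 => True) = 1 := by
  classical
  unfold Pr
  have h : (univ.filter (fun _ : V → Fin 1000 => True)).card = 1000 ^ Fintype.card V := by
    rw [Finset.filter_true, Finset.card_univ, Fintype.card_fun, Fintype.card_fin]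
  have h2 : ((univ.filter (fun _ : V → Fin 1000 => True)).card : ℝ) =
      (1000 : ℝ) ^ Fintype.card V := by
    rw [h]
    push_cast
    rfl
  convert div_self (pow_ne_zero (Fintype.card V) (by norm_num : (1000 : ℝ) ≠ 0)) using 2
  convert h2

theorem pr_not (E : (V → Fin 1000) → Prop) : Pr (fun ω => ¬ E ω) = 1 - Pr E := by
  classical
  have h0 : (1000 : ℝ) ^ Fintype.card V ≠ 0 := pow_ne_zero _ (by norm_num)
  have h : (univ.filter (fun ω : V → Fin 1000 => E ω)).card +
      (univ.filter (fun ω : V → Fin 1000 => ¬ E ω)).card = 1000 ^ Fintype.card V := by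
    rw [Finset.card_filter_add_card_filter_not, Finset.card_univ, Fintype.card_fun,
      Fintype.card_fin]
  have h2 : ((univ.filter (fun ω : V → Fin 1000 => E ω)).card : ℝ) +
      ((univ.filter (fun ω : V → Fin 1000 => ¬ E ω)).card : ℝ) =
      (1000 : ℝ) ^ Fintype.card V := by
    exact_mod_cast h
  unfold Pr
  rw [eq_sub_iff_add_eq, ← add_div, div_eq_one_iff_eq h0, add_comm]
  convert h2

end Pool.Agent.K7.H96.FM.MARG

namespace Pool.Agent.K7.H96.FM

open Finset

theorem stMarg (hC : StCount) : StMarg := by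
  intro V _ _ adj s
  have main : ∀ n : ℕ, ∀ v, s.dp v = n → v ∉ s.R → 2598 / 10000 ≤ Pr (fun ω => s.S ω v) ∧
      Pr (fun ω => s.S ω v) ≤ 2606 / 10000 := by
    intro n
    induction n using Nat.strong_induction_on with
    | _ n ih =>
      intro v hn hv
      have hlt := s.dplt v hv
      by_cases hf : s.f v ∈ s.R
      · have hne : s.f v ≠ v := fun h => hv (h ▸ hf)
        have e1 : Pr (fun ω => s.S ω v) =
            Pr (fun ω => (¬ ((ω (s.f v) : ℕ) < 420)) ∧ (ω v : ℕ) < 448) := by
          refine MARG.pr_congr fun ω => ?_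
          rw [s.S2 ω v hv hf, s.S1 ω (s.f v) hf]
          exact and_comm
        have e2 := hC V v 448 (fun ω => ¬ ((ω (s.f v) : ℕ) < 420)) (by norm_num) (by
          intro ω x
          rw [Function.update_of_ne hne])
        have e3 : Pr (fun ω : V → Fin 1000 => (ω (s.f v) : ℕ) < 420) = 420 / 1000 := by
          have h := hC V (s.f v) 420 (fun _ => True) (by norm_num) (fun ω x => Iff.rfl)
          rw [MARG.pr_true] at h
          rw [← MARG.pr_congr (E := fun ω : V → Fin 1000 => True ∧ (ω (s.f v) : ℕ) < 420)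
            (fun ω => ⟨fun h => h.2, fun h => ⟨trivial, h⟩⟩), h]
          norm_num
        have e4 : Pr (fun ω => s.S ω v) = 448 / 1000 * (1 - 420 / 1000) := by
          rw [e1, e2, MARG.pr_not, e3]
          norm_num
        rw [e4]
        constructor <;> norm_num
      · have e1 : Pr (fun ω => s.S ω v) =
            Pr (fun ω => (¬ s.S ω (s.f v)) ∧ (ω v : ℕ) < 352) := by
          refine MARG.pr_congr fun ω => ?_
          rw [s.S3 ω v hv hf]
          exact and_comm
        have e2 := hC V v 352 (fun ω => ¬ s.S ω (s.f v)) (by norm_num) (by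
          intro ω x
          rw [s.S4 ω v (s.f v) x hlt])
        obtain ⟨h1, h2⟩ := ih (s.dp (s.f v)) (hn ▸ hlt) (s.f v) rfl hf
        have e4 : Pr (fun ω => s.S ω v) = 352 / 1000 * (1 - Pr (fun ω => s.S ω (s.f v))) := by
          rw [e1, e2, MARG.pr_not]
          norm_num
        rw [e4]
        constructor <;> nlinarith
  intro v hv
  exact main _ v rfl hv

end Pool.Agent.K7.H96.FM
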