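import Mathlib

/-!
MP_e99367_co : every digraph has a fractional majority colouring of total weight at most 77/20 = 3.85.
Definitions and the statements of the parts.
-/

namespace Pool.Agent.K7.H96.FM

open Finset

open Classical in
/-- the out-neighbours -/
noncomputable def outN {V : Type} [Fintype V] (adj : V → V → Prop) (v : V) : Finset V :=
  Finset.univ.filter (fun u => adj v u)

/-- stable set: each member has at most half of its out-neighbours in the set -/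
def Stable {V : Type} [Fintype V] [DecidableEq V] (adj : V → V → Prop) (T : Finset V) : Prop :=
  ∀ v ∈ T, 2 * ((outN adj v) ∩ T).card ≤ (outN adj v).card

/-- a fractional majority colouring of total weight at most `k` -/
def FracCol {V : Type} [Fintype V] [DecidableEq V] (adj : V → V → Prop) (k : ℝ) : Prop :=
  ∃ x : Finset V → ℝ, (∀ T, 0 ≤ x T) ∧ (∀ T, ¬ Stable adj T → x T = 0) ∧
    (∀ v, 1 ≤ ∑ T ∈ univ.filter (fun T : Finset V => v ∈ T), x T) ∧ ∑ T : Finset V, x T ≤ k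

open Classical in
/-- probability for independent uniform labels `ω v ∈ {0, ..., 999}` -/
noncomputable def Pr {V : Type} [Fintype V] (E : (V → Fin 1000) → Prop) : ℝ :=
  ((univ.filter (fun ω => E ω)).card : ℝ) / (1000:ℝ) ^ (Fintype.card V)

/-- `P(Bin(n,m) ≥ j)` -/
noncomputable def B (m : ℝ) : ℕ → ℕ → ℝ
  | _, 0 => 1
  | 0, (_ + 1) => 0
  | (n + 1), (j + 1) => m * B m n j + (1 - m) * B m n (j + 1)

/-- JOB FRAC -/
def StFrac : Prop := ∀ (V : Type) [Fintype V] [DecidableEq V] (adj : V → V → Prop)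
  (T : (V → Fin 1000) → Finset V), (∀ ω, Stable adj (T ω)) →
  (∀ v, 20 / 77 ≤ Pr (fun ω => v ∈ T ω)) → FracCol adj (77 / 20)

/-- JOB COUNT -/
def StCount : Prop := ∀ (V : Type) [Fintype V] [DecidableEq V] (w : V) (t : ℕ)
  (E : (V → Fin 1000) → Prop), t ≤ 1000 → (∀ ω x, E (Function.update ω w x) ↔ E ω) →
  Pr (fun ω => E ω ∧ (ω w : ℕ) < t) = (t / 1000 : ℝ) * Pr E

/-- JOB BIN (assume StCount) -/
def StBin : Prop := ∀ (V : Type) [Fintype V] [DecidableEq V] (A : Finset V) (τ : V → ℕ) (M : ℕ)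
  (E : (V → Fin 1000) → Prop), M ≤ 1000 → (∀ w ∈ A, τ w ≤ M) →
  (∀ w ∈ A, ∀ ω x, E (Function.update ω w x) ↔ E ω) → ∀ j : ℕ,
  Pr (fun ω => E ω ∧ j ≤ (A.filter (fun w => (ω w : ℕ) < τ w)).card) ≤
    B (M / 1000 : ℝ) A.card j * Pr E

/-- JOB NUM -/
def StNum : Prop := ∀ d : ℕ, 2 ≤ d →
  B (420 / 1000) d (d / 2 + 1) ≤ 3815 / 10000 ∧
  B (448 / 1000) (d - 1) (d / 2 + 1) ≤ 3815 / 10000 ∧
  58 / 100 * B (448 / 1000) d (d / 2 + 1) + 42 / 100 * B (448 / 1000) (d - 1) (d / 2 + 1)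
    ≤ 3815 / 10000 ∧
  42 / 100 * B (448 / 1000) (d - 2) (d / 2) + 58 / 100 * B (448 / 1000) (d - 1) (d / 2 + 1)
    ≤ 3815 / 10000

/-- JOB ROOT -/
def StRoot : Prop := ∀ (V : Type) [Fintype V] [DecidableEq V] (adj : V → V → Prop),
  (∀ v, ¬ adj v v) → ∃ (R : Set V) (f : V → V) (dp : V → ℕ),
    (∀ v, v ∉ R → outN adj v = {f v}) ∧ (∀ v, v ∉ R → dp (f v) < dp v) ∧
    (∀ v, v ∈ R → (outN adj v).card = 1 →
      ∃ w, outN adj v = {w} ∧ w ∉ R ∧ (f w = v ∨ f w ∉ R))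

/-- JOB STATUS -/
def StStatus : Prop := ∀ (V : Type) [Fintype V] [DecidableEq V] (R : Set V) (f : V → V) (dp : V → ℕ),
  (∀ v, v ∉ R → dp (f v) < dp v) → ∃ S : (V → Fin 1000) → V → Prop,
    (∀ ω v, v ∈ R → (S ω v ↔ (ω v : ℕ) < 420)) ∧
    (∀ ω v, v ∉ R → f v ∈ R → (S ω v ↔ (ω v : ℕ) < 448 ∧ ¬ S ω (f v))) ∧
    (∀ ω v, v ∉ R → f v ∉ R → (S ω v ↔ (ω v : ℕ) < 352 ∧ ¬ S ω (f v))) ∧
    (∀ ω v u x, dp u < dp v → (S (Function.update ω v x) u ↔ S ω u))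

/-- everything together -/
structure Sys (V : Type) [Fintype V] [DecidableEq V] (adj : V → V → Prop) where
  R : Set V
  f : V → V
  dp : V → ℕ
  S : (V → Fin 1000) → V → Prop
  noloop : ∀ v, ¬ adj v v
  out : ∀ v, v ∉ R → outN adj v = {f v}
  dplt : ∀ v, v ∉ R → dp (f v) < dp v
  root : ∀ v, v ∈ R → (outN adj v).card = 1 →
      ∃ w, outN adj v = {w} ∧ w ∉ R ∧ (f w = v ∨ f w ∉ R)
  S1 : ∀ ω v, v ∈ R → (S ω v ↔ (ω v : ℕ) < 420)
  S2 : ∀ ω v, v ∉ R → f v ∈ R → (S ω v ↔ (ω v : ℕ) < 448 ∧ ¬ S ω (f v))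
  S3 : ∀ ω v, v ∉ R → f v ∉ R → (S ω v ↔ (ω v : ℕ) < 352 ∧ ¬ S ω (f v))
  S4 : ∀ ω v u x, dp u < dp v → (S (Function.update ω v x) u ↔ S ω u)

open Classical in
/-- the random stable set -/
noncomputable def Sys.T {V : Type} [Fintype V] [DecidableEq V] {adj : V → V → Prop}
    (s : Sys V adj) (ω : V → Fin 1000) : Finset V :=
  univ.filter (fun v => s.S ω v ∧
    (v ∈ s.R → 2 * ((outN adj v).filter (fun u => s.S ω u)).card ≤ (outN adj v).card))

/-- JOB STAB -/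
def StStab : Prop := ∀ (V : Type) [Fintype V] [DecidableEq V] (adj : V → V → Prop)
  (s : Sys V adj) (ω : V → Fin 1000), Stable adj (s.T ω)

/-- JOB MARG (assume StCount) -/
def StMarg : Prop := ∀ (V : Type) [Fintype V] [DecidableEq V] (adj : V → V → Prop)
  (s : Sys V adj) (v : V), v ∉ s.R → 2598 / 10000 ≤ Pr (fun ω => s.S ω v) ∧
    Pr (fun ω => s.S ω v) ≤ 2606 / 10000

/-- JOB G01 (assume StCount): vertices of `R` with at most one out-neighbour -/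
def StG01 : Prop := ∀ (V : Type) [Fintype V] [DecidableEq V] (adj : V → V → Prop)
  (s : Sys V adj) (v : V), v ∈ s.R → (outN adj v).card ≤ 1 →
  20 / 77 ≤ Pr (fun ω => v ∈ s.T ω)

/-- the bad event for `v` -/
def Bad {V : Type} [Fintype V] [DecidableEq V] {adj : V → V → Prop}
    (s : Sys V adj) (v : V) (ω : V → Fin 1000) : Prop :=
  ∃ C : Finset V, C ⊆ outN adj v ∧ (∀ u ∈ C, s.S ω u) ∧ (outN adj v).card < 2 * C.card

/-- JOB G2A (assume StCount, StBin, StNum) -/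
def StG2A : Prop := ∀ (V : Type) [Fintype V] [DecidableEq V] (adj : V → V → Prop)
  (s : Sys V adj) (v : V), v ∈ s.R → 2 ≤ (outN adj v).card →
  (∀ w ∈ outN adj v, w ∉ s.R → s.f w ∉ s.R) →
  Pr (fun ω => (ω v : ℕ) < 420 ∧ Bad s v ω) ≤ 42 / 100 * (3815 / 10000)

/-- JOB G2B (assume StCount, StBin, StNum) -/
def StG2B : Prop := ∀ (V : Type) [Fintype V] [DecidableEq V] (adj : V → V → Prop)
  (s : Sys V adj) (v : V), v ∈ s.R → 2 ≤ (outN adj v).card →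
  ∀ w ∈ outN adj v, w ∉ s.R → s.f w ∈ s.R → s.f w ∉ outN adj v →
  Pr (fun ω => (ω v : ℕ) < 420 ∧ Bad s v ω) ≤ 42 / 100 * (3815 / 10000)

/-- JOB G2C (assume StCount, StBin, StNum) -/
def StG2C : Prop := ∀ (V : Type) [Fintype V] [DecidableEq V] (adj : V → V → Prop)
  (s : Sys V adj) (v : V), v ∈ s.R → 2 ≤ (outN adj v).card →
  ∀ w ∈ outN adj v, w ∉ s.R → s.f w ∈ s.R → s.f w ∈ outN adj v →
  Pr (fun ω => (ω v : ℕ) < 420 ∧ Bad s v ω) ≤ 42 / 100 * (3815 / 10000)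

/-- JOB G2 (assume StCount, StG2A, StG2B, StG2C) -/
def StG2 : Prop := ∀ (V : Type) [Fintype V] [DecidableEq V] (adj : V → V → Prop)
  (s : Sys V adj) (v : V), v ∈ s.R → 2 ≤ (outN adj v).card →
  20 / 77 ≤ Pr (fun ω => v ∈ s.T ω)

/-- FINAL -/
def StMain : Prop := ∀ (V : Type) [Fintype V] [DecidableEq V] (adj : V → V → Prop),
  (∀ v, ¬ adj v v) → FracCol adj (77 / 20)

end Pool.Agent.K7.H96.FM
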