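import Mathlib
import Pool.Agent.K7.H96.FM.Stm

set_option autoImplicit false

/-! Project FM, job NUM. Author: helper63. -/

namespace Pool.Agent.K7.H96.FM

lemma B_z (m : ℝ) (n : ℕ) : B m n 0 = 1 := by
  cases n <;> rfl

lemma B_s (m : ℝ) (n j : ℕ) : B m (n + 1) (j + 1) = m * B m n j + (1 - m) * B m n (j + 1) := rfl

lemma B_diff (m : ℝ) (n : ℕ) : ∀ j : ℕ,
    B m n j - B m n (j + 1) = (n.choose j : ℝ) * m ^ j * (1 - m) ^ (n - j) := by
  induction n with
  | zero =>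
    intro j
    cases j with
    | zero => simp [B]
    | succ j => simp [B]
  | succ n ih =>
    intro j
    cases j with
    | zero =>
      have h := ih 0
      rw [B_z] at h ⊢
      rw [zero_add] at h ⊢
      have h2 : B m (n + 1) 1 = m * B m n 0 + (1 - m) * B m n 1 := rfl
      rw [h2, B_z]
      simp only [Nat.choose_zero_right, Nat.cast_one, pow_zero, one_mul, Nat.sub_zero] at h ⊢
      rw [pow_succ, ← h]
      ring
    | succ j =>
      rw [B_s, B_s]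
      have h1 := ih j
      have h2 := ih (j + 1)
      have e1 : m * B m n j + (1 - m) * B m n (j + 1) - (m * B m n (j + 1) + (1 - m) * B m n (j + 1 + 1)) =
        m * (B m n j - B m n (j + 1)) + (1 - m) * (B m n (j + 1) - B m n (j + 1 + 1)) := by ring
      rw [e1, h1, h2, Nat.choose_succ_succ]
      have e2 : n + 1 - (j + 1) = n - j := by omega
      rw [e2]
      push_cast
      rcases le_or_gt (j + 1) n with h | h
      · have e3 : n - j = n - (j + 1) + 1 := by omega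
        rw [e3]
        ring
      · have e4 : n.choose (j + 1) = 0 := Nat.choose_eq_zero_of_lt h
        have e5 : n.choose j.succ = 0 := e4
        rw [e5]
        push_cast
        ring

lemma B_anti {m : ℝ} (h0 : 0 ≤ m) (h1 : m ≤ 1) (n j : ℕ) : B m n (j + 1) ≤ B m n j := by
  have h := B_diff m n j
  have h2 : 0 ≤ (n.choose j : ℝ) * m ^ j * (1 - m) ^ (n - j) := by
    have : 0 ≤ 1 - m := by linarith
    positivity
  linarith

lemma B_up {m : ℝ} (h0 : 0 ≤ m) (h1 : m ≤ 1) (n j : ℕ) : B m n j ≤ B m (n + 1) j := by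
  cases j with
  | zero => rw [B_z, B_z]
  | succ j =>
    rw [B_s]
    have := B_anti h0 h1 n j
    nlinarith

lemma B_diag {m : ℝ} (h0 : 0 ≤ m) (h1 : m ≤ 1) (n j : ℕ) : B m (n + 1) (j + 1) ≤ B m n j := by
  rw [B_s]
  have := B_anti h0 h1 n j
  nlinarith

lemma B_odd {m : ℝ} (h0 : 0 ≤ m) (h1 : m ≤ 1 / 2) (k : ℕ) :
    B m (2 * (k + 1) + 1) (k + 1 + 1) ≤ B m (2 * k + 1) (k + 1) := by
  have e : 2 * (k + 1) + 1 = 2 * k + 1 + 1 + 1 := by ring
  rw [e]
  have r1 : B m (2 * k + 1 + 1 + 1) (k + 1 + 1) =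
    m * B m (2 * k + 1 + 1) (k + 1) + (1 - m) * B m (2 * k + 1 + 1) (k + 1 + 1) := rfl
  have r2 : B m (2 * k + 1 + 1) (k + 1) = m * B m (2 * k + 1) k + (1 - m) * B m (2 * k + 1) (k + 1) := rfl
  have r3 : B m (2 * k + 1 + 1) (k + 1 + 1) =
    m * B m (2 * k + 1) (k + 1) + (1 - m) * B m (2 * k + 1) (k + 1 + 1) := rfl
  rw [r1, r2, r3]
  have d1 := B_diff m (2 * k + 1) k
  have d2 := B_diff m (2 * k + 1) (k + 1)
  have c1 : (2 * k + 1).choose (k + 1) = (2 * k + 1).choose k := by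
    rw [← Nat.choose_symm (by omega : k ≤ 2 * k + 1)]
    congr 1
    omega
  rw [c1] at d2
  have s1 : 2 * k + 1 - k = k + 1 := by omega
  have s2 : 2 * k + 1 - (k + 1) = k := by omega
  rw [s1] at d1
  rw [s2] at d2
  have hc : (0 : ℝ) ≤ ((2 * k + 1).choose k : ℝ) * (m ^ (k + 1) * (1 - m) ^ (k + 1)) := by
    have : 0 ≤ 1 - m := by linarith
    positivity
  have key : m ^ 2 * (B m (2 * k + 1) k - B m (2 * k + 1) (k + 1)) -
      (1 - m) ^ 2 * (B m (2 * k + 1) (k + 1) - B m (2 * k + 1) (k + 1 + 1)) ≤ 0 := by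
    rw [d1, d2]
    have e2 : m ^ 2 * (((2 * k + 1).choose k : ℝ) * m ^ k * (1 - m) ^ (k + 1)) -
        (1 - m) ^ 2 * (((2 * k + 1).choose k : ℝ) * m ^ (k + 1) * (1 - m) ^ k) =
        (((2 * k + 1).choose k : ℝ) * (m ^ (k + 1) * (1 - m) ^ (k + 1))) * (2 * m - 1) := by ring
    rw [e2]
    nlinarith
  nlinarith

lemma B_odd_le {m : ℝ} (h0 : 0 ≤ m) (h1 : m ≤ 1 / 2) {k l : ℕ} (h : k ≤ l) :
    B m (2 * l + 1) (l + 1) ≤ B m (2 * k + 1) (k + 1) := by
  induction l, h using Nat.le_induction with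
  | base => exact le_refl _
  | succ l _ ih => exact (B_odd h0 h1 l).trans ih

lemma b1 : B (420 / 1000) 9 5 ≤ 374 / 1000 := by norm_num [B]

lemma b2 : B (448 / 1000) 9 5 ≤ 374 / 1000 := by norm_num [B]

theorem stNum : StNum := by
  intro d hd
  rcases le_or_gt d 10 with h | h
  · interval_cases d
    all_goals norm_num [B]
  have ha0 : (0 : ℝ) ≤ 420 / 1000 := by norm_num
  have ha1 : (420 / 1000 : ℝ) ≤ 1 / 2 := by norm_num
  have ha2 : (420 / 1000 : ℝ) ≤ 1 := by norm_num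
  have hb0 : (0 : ℝ) ≤ 448 / 1000 := by norm_num
  have hb1 : (448 / 1000 : ℝ) ≤ 1 / 2 := by norm_num
  have hb2 : (448 / 1000 : ℝ) ≤ 1 := by norm_num
  have oa : ∀ l, 4 ≤ l → B (420 / 1000) (2 * l + 1) (l + 1) ≤ 374 / 1000 := fun l hl =>
    (B_odd_le ha0 ha1 hl).trans b1
  have ob : ∀ l, 4 ≤ l → B (448 / 1000) (2 * l + 1) (l + 1) ≤ 374 / 1000 := fun l hl =>
    (B_odd_le hb0 hb1 hl).trans b2
  rcases Nat.even_or_odd' d with ⟨k, rfl | rfl⟩
  · -- d = 2 k, k ≥ 6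
    obtain ⟨l, rfl⟩ : ∃ l, k = l + 2 := ⟨k - 2, by omega⟩
    have e1 : 2 * (l + 2) / 2 = l + 2 := by omega
    have e2 : 2 * (l + 2) - 1 = 2 * (l + 1) + 1 := by omega
    have e3 : 2 * (l + 2) - 2 = 2 * l + 1 + 1 := by omega
    have e4 : 2 * (l + 2) = 2 * (l + 1) + 1 + 1 := by omega
    rw [e1, e2, e3, e4]
    have p1 := oa (l + 1) (by omega)
    have p2 := ob (l + 1) (by omega)
    have p3 := ob l (by omega)
    have q1 := B_diag ha0 ha2 (2 * (l + 1) + 1) (l + 1 + 1)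
    have q2 := B_anti hb0 hb2 (2 * (l + 1) + 1) (l + 1 + 1)
    have q3 := B_diag hb0 hb2 (2 * (l + 1) + 1) (l + 1 + 1)
    have q4 := B_diag hb0 hb2 (2 * l + 1) (l + 1)
    refine ⟨?_, ?_, ?_, ?_⟩ <;> linarith
  · -- d = 2 k + 1, k ≥ 5
    obtain ⟨l, rfl⟩ : ∃ l, k = l + 1 := ⟨k - 1, by omega⟩
    have e1 : (2 * (l + 1) + 1) / 2 = l + 1 := by omega
    have e2 : 2 * (l + 1) + 1 - 1 = 2 * l + 1 + 1 := by omega
    have e3 : 2 * (l + 1) + 1 - 2 = 2 * l + 1 := by omega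
    rw [e1, e2, e3]
    have p1 := oa (l + 1) (by omega)
    have p2 := ob (l + 1) (by omega)
    have p3 := ob l (by omega)
    have q1 := B_diag hb0 hb2 (2 * l + 1) (l + 1)
    refine ⟨?_, ?_, ?_, ?_⟩ <;> linarith

end Pool.Agent.K7.H96.FM
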