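import Pool.Agent.K7.H96.FM.Stm

/-!
Job ROOT of project FM.
-/

namespace Pool.Agent.K7.H96.FM

open Finset

theorem stRoot : StRoot := by
  classical
  intro V _ _ adj hl
  -- the out-neighbour
  let f : V → V := fun v => if h : ∃ w, outN adj v = {w} then h.choose else v
  have hf : ∀ v, (outN adj v).card = 1 → outN adj v = {f v} := by
    intro v hv
    have h : ∃ w, outN adj v = {w} := Finset.card_eq_one.mp hv
    have : f v = h.choose := by simp only [f]; rw [dif_pos h]
    rw [this]
    exact h.choose_spec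
  let P : Finset V → Prop := fun R => (∀ v, (outN adj v).card ≠ 1 → v ∈ R) ∧
    ∀ v, ∃ n : ℕ, f^[n] v ∈ R
  have hex : ∃ n : ℕ, ∃ R : Finset V, P R ∧ R.card = n :=
    ⟨_, Finset.univ, ⟨fun v _ => mem_univ v, fun v => ⟨0, mem_univ _⟩⟩, rfl⟩
  obtain ⟨R, hR, hc⟩ := Nat.find_spec hex
  have hmin : ∀ R' : Finset V, P R' → R.card ≤ R'.card := by
    intro R' hR'
    rw [hc]
    exact Nat.find_min' hex ⟨R', hR', rfl⟩
  refine ⟨(R : Set V), f, fun v => Nat.find (hR.2 v), ?_, ?_, ?_⟩
  · intro v hv
    apply hf
    by_contra h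
    exact hv (hR.1 v h)
  · intro v hv
    have h0 : Nat.find (hR.2 v) ≠ 0 := by
      intro h0
      have := Nat.find_spec (hR.2 v)
      rw [h0] at this
      exact hv this
    obtain ⟨m, hm⟩ := Nat.exists_eq_succ_of_ne_zero h0
    have h1 := Nat.find_spec (hR.2 v)
    rw [hm, Function.iterate_succ_apply] at h1
    have h2 : Nat.find (hR.2 (f v)) ≤ m := Nat.find_min' _ h1
    show Nat.find (hR.2 (f v)) < Nat.find (hR.2 v)
    omega
  · intro v hv hv1
    have hnot : ¬ P (R.erase v) := by
      intro h
      have h1 := hmin _ h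
      have h2 := Finset.card_erase_lt_of_mem (Finset.mem_coe.mp hv)
      omega
    have ha : ∀ u, (outN adj u).card ≠ 1 → u ∈ R.erase v := by
      intro u hu
      rw [Finset.mem_erase]
      refine ⟨?_, hR.1 u hu⟩
      rintro rfl
      exact hu hv1
    have hb : ∃ u, ∀ n : ℕ, f^[n] u ∉ R.erase v := by
      by_contra h
      push Not at h
      exact hnot ⟨ha, h⟩
    obtain ⟨u, hu⟩ := hb
    obtain ⟨n, hn⟩ := hR.2 u
    have hnv : f^[n] u = v := by
      by_contra h
      exact hu n (Finset.mem_erase.mpr ⟨h, hn⟩)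
    have h1 := hu (n + 1)
    have h2 := hu (n + 2)
    have e1 : f^[n + 1] u = f v := by rw [Function.iterate_succ_apply', hnv]
    have e2 : f^[n + 2] u = f (f v) := by
      rw [Function.iterate_succ_apply', Function.iterate_succ_apply', hnv]
    rw [e1] at h1
    rw [e2] at h2
    have hw := hf v hv1
    have hadj : adj v (f v) := by
      have : f v ∈ outN adj v := by rw [hw]; exact mem_singleton_self _
      simpa [outN] using this
    have hne : f v ≠ v := by
      intro h
      rw [h] at hadj
      exact hl v hadj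
    refine ⟨f v, hw, ?_, ?_⟩
    · intro h
      exact h1 (Finset.mem_erase.mpr ⟨hne, Finset.mem_coe.mp h⟩)
    · by_cases h : f (f v) = v
      · exact Or.inl h
      · right
        intro h'
        exact h2 (Finset.mem_erase.mpr ⟨h, Finset.mem_coe.mp h'⟩)

end Pool.Agent.K7.H96.FM
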