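import Pool.Agent.K7.H96.FM.Stm

/-!
Job STAB of the project FM (MP_e99367_co), by helper97.
-/

namespace Pool.Agent.K7.H96.FM

open Finset

/-- the random set is stable -/
theorem stStab : StStab := by
  classical
  intro V _ _ adj s ω v hv
  unfold Sys.T at hv
  rw [Finset.mem_filter] at hv
  obtain ⟨-, hS, hR⟩ := hv
  by_cases h : v ∈ s.R
  · have h1 : ((outN adj v) ∩ s.T ω).card ≤ ((outN adj v).filter (fun u => s.S ω u)).card := by
      apply Finset.card_le_card
      intro u hu
      rw [Finset.mem_inter] at hu
      have h2 := hu.2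
      unfold Sys.T at h2
      rw [Finset.mem_filter] at h2
      rw [Finset.mem_filter]
      exact ⟨hu.1, h2.2.1⟩
    have h3 := hR h
    calc 2 * ((outN adj v) ∩ s.T ω).card
        ≤ 2 * ((outN adj v).filter (fun u => s.S ω u)).card := by omega
      _ ≤ (outN adj v).card := by convert h3
  · have h1 : ¬ s.S ω (s.f v) := by
      by_cases h2 : s.f v ∈ s.R
      · exact ((s.S2 ω v h h2).1 hS).2
      · exact ((s.S3 ω v h h2).1 hS).2
    have h2 : (outN adj v) ∩ s.T ω = ∅ := by
      rw [s.out v h]
      apply Finset.eq_empty_of_forall_notMem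
      intro u hu
      rw [Finset.mem_inter, Finset.mem_singleton] at hu
      obtain ⟨h3, h4⟩ := hu
      unfold Sys.T at h4
      rw [Finset.mem_filter] at h4
      rw [h3] at h4
      exact h1 h4.2.1
    rw [h2]
    simp

end Pool.Agent.K7.H96.FM
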