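import Pool.Agent.K7.H96.FM.Stm

set_option autoImplicit false

namespace Pool.Agent.K7.H96.FM

open Classical in
/-- the status with recursion depth `n` -/
noncomputable def stF {V : Type} (R : Set V) (f : V → V) : ℕ → (V → Fin 1000) → V → Prop
  | 0, _, _ => False
  | (n + 1), ω, v =>
    if v ∈ R then (ω v : ℕ) < 420
    else if f v ∈ R then (ω v : ℕ) < 448 ∧ ¬ stF R f n ω (f v)
    else (ω v : ℕ) < 352 ∧ ¬ stF R f n ω (f v)

theorem stF_congr {V : Type} (R : Set V) (f : V → V) (dp : V → ℕ)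
    (h : ∀ v, v ∉ R → dp (f v) < dp v) (ω : V → Fin 1000) :
    ∀ (n m : ℕ) (v : V), dp v < n → dp v < m → (stF R f n ω v ↔ stF R f m ω v) := by
  intro n
  induction n with
  | zero => intro m v h1; omega
  | succ n ih =>
    intro m v h1 h2
    obtain ⟨m, rfl⟩ : ∃ m', m = m' + 1 := ⟨m - 1, by omega⟩
    rw [stF, stF]
    by_cases hv : v ∈ R
    · rw [if_pos hv, if_pos hv]
    · have hlt := h v hv
      have := ih m (f v) (by omega) (by omega)
      rw [if_neg hv, if_neg hv, this]

theorem stF_update {V : Type} [DecidableEq V] (R : Set V) (f : V → V) (dp : V → ℕ)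
    (h : ∀ v, v ∉ R → dp (f v) < dp v) (ω : V → Fin 1000) (v : V) (x : Fin 1000) :
    ∀ (n : ℕ) (u : V), dp u < dp v → (stF R f n (Function.update ω v x) u ↔ stF R f n ω u) := by
  intro n
  induction n with
  | zero => intro u _; rw [stF, stF]
  | succ n ih =>
    intro u hu
    have hne : u ≠ v := fun e => by rw [e] at hu; omega
    rw [stF, stF, Function.update_of_ne hne]
    by_cases hR : u ∈ R
    · rw [if_pos hR, if_pos hR]
    · have hlt := h u hR
      have := ih (f u) (by omega)
      rw [if_neg hR, if_neg hR, this]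

/-- JOB STATUS -/
theorem stStatus : StStatus := by
  intro V _ _ R f dp h
  refine ⟨fun ω v => stF R f (dp v + 1) ω v, ?_, ?_, ?_, ?_⟩
  · intro ω v hv
    change stF R f (dp v + 1) ω v ↔ _
    rw [stF, if_pos hv]
  · intro ω v hv hfv
    have h1 := stF_congr R f dp h ω (dp v) (dp (f v) + 1) (f v) (h v hv) (by omega)
    change stF R f (dp v + 1) ω v ↔ (ω v : ℕ) < 448 ∧ ¬ stF R f (dp (f v) + 1) ω (f v)
    rw [stF, if_neg hv, if_pos hfv, h1]
  · intro ω v hv hfv
    have h1 := stF_congr R f dp h ω (dp v) (dp (f v) + 1) (f v) (h v hv) (by omega)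
    change stF R f (dp v + 1) ω v ↔ (ω v : ℕ) < 352 ∧ ¬ stF R f (dp (f v) + 1) ω (f v)
    rw [stF, if_neg hv, if_neg hfv, h1]
  · intro ω v u x hu
    exact stF_update R f dp h ω v x (dp u + 1) u hu

end Pool.Agent.K7.H96.FM
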